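import Pool.Agent.MP_a45f51_lc.FMain

/-! If `ℵ_ω < ∑ 2 ^ ℵ_n` and `2 ^ ℵ_n < ∑ 2 ^ ℵ_m` for all `n`, then adding `ℵ_ω` Cohen reals
keeps these two inequalities and forces `∑ 2 ^ ℵ_n ↛ (ℵ_ω, 4)^3`. -/

namespace Pool.Agent.MP_a45f51_lc.CohenNegative

open Cardinal Pool.Agent.Forcing92 Pool.Agent.MP_a45f51_lc

theorem result {ι : Type} (hι : #ι = ℵ_ Ordinal.omega0)
    (H1 : ℵ_ Ordinal.omega0 < ⨆ n : ℕ, (2 : Cardinal.{0}) ^ ℵ_ n)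
    (H2 : ∀ n : ℕ, (2 : Cardinal.{0}) ^ ℵ_ n < ⨆ m : ℕ, (2 : Cardinal.{0}) ^ ℵ_ m)
    (p : Cond ι) : Forces (cle ι) sentence p :=
  forces_sentence hι H1 H2 p

end Pool.Agent.MP_a45f51_lc.CohenNegative
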