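import Mathlib
import Pool.Agent.MP_a45f51_lc.FCard

/-! Nice names, the name of the colouring, and the main theorem. -/

namespace Pool.Agent.MP_a45f51_lc

open Cardinal Set Pool.Agent.Forcing92 Pool.Agent.Forcing92.Fml

section Or3

variable {P : Type} {le : P → P → Prop} [Pre le]

theorem or3_elim {u x y z : Name P} {q : P}
    (h : Forces le (or (eq u x) (or (eq u y) (eq u z))) q) :
    ∃ r, le r q ∧ (fEq le u x r ∨ fEq le u y r ∨ fEq le u z r) := by
  obtain ⟨r, hr, h | h⟩ := forces_or.1 h q (lrefl q)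
  · exact ⟨r, hr, Or.inl h⟩
  · obtain ⟨s, hs, h⟩ := forces_or.1 h r (lrefl r)
    exact ⟨s, ltrans hs hr, Or.inr h⟩

theorem or3_intro {u x y z : Name P} {q : P}
    (h : fEq le u x q ∨ fEq le u y q ∨ fEq le u z q) :
    Forces le (or (eq u x) (or (eq u y) (eq u z))) q := by
  refine forces_or.2 fun r hr => ⟨r, lrefl r, ?_⟩
  rcases h with h | h
  · exact Or.inl (fEq_mono hr h)
  · exact Or.inr (forces_or.2 fun s hs => ⟨s, lrefl s,
      h.imp (fEq_mono (ltrans hs hr)) (fEq_mono (ltrans hs hr))⟩)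

def triple (t : P) (x y z : Name P) : Name P := Name.mk (Fin 3) ![x, y, z] fun _ => t

theorem mem_triple {t : P} (ht : ∀ p, le p t) {u x y z : Name P} {q : P} :
    fMem le u (triple t x y z) q ↔ Forces le (or (eq u x) (or (eq u y) (eq u z))) q := by
  constructor
  · intro h
    refine Forces.dense fun r hr => ?_
    obtain ⟨s, hs, j, -, he⟩ := h r hr
    refine ⟨s, hs, or3_intro ?_⟩
    fin_cases j
    · exact Or.inl (fEq_symm he)
    · exact Or.inr (Or.inl (fEq_symm he))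
    · exact Or.inr (Or.inr (fEq_symm he))
  · intro h r hr
    obtain ⟨s, hs, h | h | h⟩ := or3_elim (h.mono hr)
    · exact ⟨s, hs, 0, ht s, fEq_symm h⟩
    · exact ⟨s, hs, 1, ht s, fEq_symm h⟩
    · exact ⟨s, hs, 2, ht s, fEq_symm h⟩

end Or3

section Nice

variable {K : Type} [LinearOrder K] [WellFoundedLT K]

/-- codes of nice names for subsets of the ordinals `a n` -/
def Lam (a : ℕ → K) : Type :=
  {x : ℕ × (K → Set (Cond K)) // (∀ b, (x.2 b).Countable) ∧ ∀ b, ¬ b < a x.1 → x.2 b = ∅}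

variable {a : ℕ → K}

def lev (j : Lam a) : ℕ := j.1.1

noncomputable def nm (j : Lam a) : Name (Cond K) :=
  Name.mk {i : K × Cond K // i.2 ∈ j.1.2 i.1} (fun i => chk ctop i.1.1) fun i => i.1.2

noncomputable def Lname (a : ℕ → K) : Name (Cond K) := Name.mk (Lam a) nm fun _ => ctop

theorem fMem_nm_elim {j : Lam a} {x : Name (Cond K)} {p : Cond K} (h : fMem (cle K) x (nm j) p) :
    ∃ r, cle K r p ∧ ∃ b u, u ∈ j.1.2 b ∧ cle K r u ∧ fEq (cle K) (chk ctop b) x r := by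
  obtain ⟨r, hr, i, h1, h2⟩ := h p (lrefl p)
  exact ⟨r, hr, i.1.1, i.1.2, i.2, h1, h2⟩

theorem chk_mem_nm {j : Lam a} {b : K} {u p : Cond K} (hu : u ∈ j.1.2 b) (hp : cle K p u) :
    fMem (cle K) (chk ctop b) (nm j) p :=
  fMem_mk (I := {i : K × Cond K // i.2 ∈ j.1.2 i.1}) (A := fun i => chk ctop i.1.1)
    (c := fun i => i.1.2) ⟨(b, u), hu⟩ hp

theorem nm_mem_L (j : Lam a) (p : Cond K) : fMem (cle K) (nm j) (Lname a) p :=
  fMem_mk j (le_ctop p)

theorem fMem_L_elim {x : Name (Cond K)} {p : Cond K} (h : fMem (cle K) x (Lname a) p) :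
    ∃ r, cle K r p ∧ ∃ j : Lam a, fEq (cle K) (nm j) x r := by
  obtain ⟨r, hr, j, -, he⟩ := h p (lrefl p)
  exact ⟨r, hr, j, he⟩

theorem nm_sub (j : Lam a) (p : Cond K) :
    Forces (cle K) (sub (nm j) (chk ctop (a (lev j)))) p := by
  refine forces_sub.2 fun z q _ hz => fMem_dense fun r hr => ?_
  obtain ⟨s, hs, b, u, hu, -, he⟩ := fMem_nm_elim (fMem_mono hr hz)
  have hb : b < a (lev j) := by
    by_contra hn
    rw [j.2.2 b hn] at hu
    exact hu
  exact ⟨s, hs, fMem_congr_left he (chk_mem_chk le_ctop hb s)⟩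

theorem exists_nice (x : Name (Cond K)) (n : ℕ) : ∃ j : Lam a, lev j = n ∧
    ∀ q, Forces (cle K) (sub x (chk ctop (a n))) q → fEq (cle K) (nm j) x q := by
  classical
  choose A hAD hAc hAp using fun b : K => predense {r : Cond K | fMem (cle K) (chk ctop b) x r}
  refine ⟨⟨(n, fun b => if b < a n then A b else ∅), fun b => ?_, fun b hb => if_neg hb⟩, rfl,
    fun q hq => fEq_of_ext fun z r hr => ⟨fun hz => fMem_dense fun s hs => ?_,
      fun hz => fMem_dense fun s hs => ?_⟩⟩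
  · dsimp only
    split_ifs
    · exact hAc b
    · exact countable_empty
  · obtain ⟨v, hv, b, u, hu, hvu, he⟩ := fMem_nm_elim (fMem_mono hs hz)
    have hu' : u ∈ A b := by
      dsimp only at hu
      split_ifs at hu
      · exact hu
      · exact hu.elim
    exact ⟨v, hv, fMem_congr_left he (fMem_mono hvu (hAD b hu'))⟩
  · obtain ⟨v, hv, b, hb, he⟩ :=
      fMem_chk_elim (forces_sub.1 hq z s (ltrans hs hr) (fMem_mono hs hz))
    obtain ⟨u, hu, hc⟩ := hAp b v (fMem_congr_left (fEq_symm he) (fMem_mono (ltrans hv hs) hz))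
    obtain ⟨w, hw1, hw2⟩ := exists_common hc
    refine ⟨w, ltrans hw1 hv, fMem_congr_left (fEq_mono hw1 he) (chk_mem_nm (u := u) ?_ hw2)⟩
    dsimp only
    rw [if_pos hb]
    exact hu

theorem sub_chk_of {x α : Name (Cond K)} {y c : K} {p : Cond K}
    (he : fEq (cle K) (chk ctop y) α p) (h : Forces (cle K) (sub x α) p) (hyc : y ≤ c) :
    Forces (cle K) (sub x (chk ctop c)) p := by
  refine forces_sub.2 fun z q hq hz => fMem_dense fun r hr => ?_
  obtain ⟨s, hs, b, hb, hbz⟩ := fMem_chk_elim (fMem_congr_right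
    (fEq_symm (fEq_mono (ltrans hr hq) he)) (forces_sub.1 h z r (ltrans hr hq) (fMem_mono hr hz)))
  exact ⟨s, hs, fMem_congr_left hbz (chk_mem_chk le_ctop (hb.trans_le hyc) s)⟩

theorem forces_bdd (hs : ∀ x : K, #(Iio x) < ℵ_ Ordinal.omega0)
    (ha : ∀ n, #(Iio (a n)) = ℵ_ n) (p : Cond K) :
    Forces (cle K) (bdd (kap ctop K) (Lname a)) p := by
  intro x
  refine forces_iff.2 fun q _ => ⟨fun h => forces_exIn.2 fun r hr => ?_,
    fun h => fMem_dense fun r hr => ?_⟩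
  · obtain ⟨s, hsr, j, he⟩ := fMem_L_elim (fMem_mono hr h)
    refine ⟨s, hsr, chk ctop (a (lev j)), chk_mem_kap le_ctop _ s,
      forces_sub.2 fun z u hu hz => ?_⟩
    exact forces_sub.1 (nm_sub j s) z u hu (fMem_congr_right (fEq_symm (fEq_mono hu he)) hz)
  · obtain ⟨s, hsr, α, hα, hx⟩ := forces_exIn.1 h r hr
    obtain ⟨u, hu, y, hy⟩ := fMem_kap_elim hα
    obtain ⟨n, hn⟩ := lt_a hs ha y
    obtain ⟨j, -, hj⟩ := exists_nice (a := a) x n
    exact ⟨u, ltrans hu hsr,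
      fMem_congr_left (hj u (sub_chk_of hy (hx.mono hu) hn.le)) (nm_mem_L j u)⟩

/-- the code of a ground model subset of `a m` -/
def ground (m : ℕ) (S : Set (Iio (a m))) : Lam a :=
  ⟨(m, fun b => {r | r = ctop ∧ ∃ h : b < a m, ⟨b, h⟩ ∈ S}),
    fun _ => (countable_singleton ctop).mono fun _ hr => hr.1,
    fun _ hb => eq_empty_of_forall_notMem fun _ hr => hb hr.2.1⟩

theorem ground_sub {m : ℕ} {S S' : Set (Iio (a m))} {q : Cond K}
    (h : fEq (cle K) (nm (ground m S)) (nm (ground m S')) q) : S ⊆ S' := by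
  rintro ⟨b, hb⟩ hS
  obtain ⟨r, -, c, u, hu, -, he⟩ := fMem_nm_elim (fMem_congr_right h
    (chk_mem_nm (j := ground m S) (b := b) (u := ctop) ⟨rfl, hb, hS⟩ (le_ctop q)))
  obtain rfl := chk_inj le_ctop he
  exact hu.2.2

theorem no_inj_L (ha : ∀ n, #(Iio (a n)) = ℵ_ n) {J : Type} {m : ℕ} (hJ : #J < 2 ^ ℵ_ m)
    (B : J → Name (Cond K)) {φ : Name (Cond K) → Fml (Name (Cond K))} {p : Cond K}
    (hB : ∀ y q, cle K q p → Forces (cle K) (φ y) q →
      ∃ r, cle K r q ∧ ∃ j, fEq (cle K) y (B j) r) :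
    Forces (cle K) (neg (leq (Lname a) φ)) p := by
  have hI : #(Set (Iio (a m))) = 2 ^ ℵ_ m := by rw [mk_set, ha]
  have : Uncountable (Set (Iio (a m))) := by
    rw [← aleph0_lt_mk_iff, hI]
    exact (aleph0_le_aleph _).trans_lt (cantor _)
  exact no_inj (I := Set (Iio (a m))) (hI ▸ hJ) (fun S => nm (ground m S)) B
    (fun S => nm_mem_L _ p)
    (fun S S' q he => (ground_sub he).antisymm (ground_sub (fEq_symm he))) hB

omit [WellFoundedLT K] in
theorem mk_level_le (ha : ∀ n, #(Iio (a n)) = ℵ_ n) {n0 : ℕ} (h0 : #K ≤ 2 ^ ℵ_ n0) (n : ℕ) :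
    #{j : Lam a // lev j = n} ≤ 2 ^ ℵ_ (max n n0 : ℕ) := by
  have h1 := cnt_le (aleph0_le_aleph _) (mk_cond_le (aleph0_le_aleph _) h0)
  have h2 : #{j : Lam a // lev j = n} ≤ #(Iio (a n) → {t : Set (Cond K) // t.Countable}) := by
    refine mk_le_of_injective (f := fun j b => ⟨j.1.1.2 b.1, j.1.2.1 b.1⟩) ?_
    rintro ⟨⟨⟨n1, U⟩, hU⟩, h⟩ ⟨⟨⟨n2, U'⟩, hU'⟩, h'⟩ he
    obtain rfl : n1 = n := h
    obtain rfl : n2 = n1 := h'
    have : U = U' := by
      funext b
      by_cases hb : b < a n2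
      · exact congrArg Subtype.val (congrFun he ⟨b, hb⟩)
      · exact (hU.2 b hb).trans (hU'.2 b hb).symm
    subst this
    rfl
  refine h2.trans ?_
  rw [← power_def, ha]
  refine (power_le_power_right h1).trans ?_
  rw [← power_mul, mul_eq_max (aleph0_le_aleph _) (aleph0_le_aleph _)]
  exact power_le_power_left two_ne_zero
    (max_le (aleph_nat_le.2 (le_max_right _ _)) (aleph_nat_le.2 (le_max_left _ _)))

omit [WellFoundedLT K] in
theorem exists_code (ha : ∀ n, #(Iio (a n)) = ℵ_ n) {n0 : ℕ} (h0 : #K ≤ 2 ^ ℵ_ n0) :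
    ∃ g : Lam a → K → Bool, (∀ x y, lev x = lev y → g x = g y → x = y) ∧
      ∀ x b, ¬ b < a (max (lev x) n0) → g x b = false := by
  classical
  have key : ∀ n : ℕ, ∃ G : Lam a → K → Bool, (∀ x y, lev x = n → lev y = n → G x = G y → x = y) ∧
      ∀ x b, ¬ b < a (max n n0) → G x b = false := by
    intro n
    have h := mk_level_le ha h0 n
    rw [← ha, ← mk_set] at h
    obtain ⟨e⟩ := h
    refine ⟨fun x b => decide (∃ (h : lev x = n) (hb : b < a (max n n0)), ⟨b, hb⟩ ∈ e ⟨x, h⟩),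
      fun x y hx hy he => ?_, fun x b hb => by simp [hb]⟩
    have : e ⟨x, hx⟩ = e ⟨y, hy⟩ := by
      ext ⟨b, hb⟩
      have := congrFun he b
      simp only [decide_eq_decide] at this
      exact ⟨fun h => (this.1 ⟨hx, hb, h⟩).2.2, fun h => (this.2 ⟨hy, hb, h⟩).2.2⟩
    exact congrArg Subtype.val (e.injective this)
  choose G h1 h2 using key
  refine ⟨fun x => G (lev x) x, fun x y hxy he => h1 (lev x) x y rfl hxy.symm ?_,
    fun x b hb => h2 _ x b hb⟩
  have he' : G (lev x) x = G (lev y) y := he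
  rw [he', hxy]

variable [LinearOrder (Lam a)]

/-- `q` forces that `j` is the least code of the set it names -/
def Idx (q : Cond K) (j : Lam a) : Prop :=
  ∀ j' < j, ∀ r, cle K r q → ¬ fEq (cle K) (nm j') (nm j) r

theorem Idx.mono {q r : Cond K} {j : Lam a} (h : Idx q j) (hr : cle K r q) : Idx r j :=
  fun j' hj s hs => h j' hj s (ltrans hs hr)

theorem idx_uniq {q : Cond K} {j j' : Lam a} (h : Idx q j) (h' : Idx q j')
    (he : fEq (cle K) (nm j) (nm j') q) : j = j' := by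
  rcases lt_trichotomy j j' with hl | hl | hl
  · exact absurd he (h' j hl q (lrefl q))
  · exact hl
  · exact absurd (fEq_symm he) (h j' hl q (lrefl q))

theorem idx_dense [WellFoundedLT (Lam a)] {x : Name (Cond K)} {q : Cond K}
    (h : fMem (cle K) x (Lname a) q) :
    ∃ r, cle K r q ∧ ∃ j : Lam a, Idx r j ∧ fEq (cle K) (nm j) x r := by
  obtain ⟨r0, hr0, j0, h0⟩ := fMem_L_elim h
  obtain ⟨j, ⟨r, hr, hj⟩, hmin⟩ := (wellFounded_lt (α := Lam a)).has_min
    {j | ∃ r, cle K r q ∧ fEq (cle K) (nm j) x r} ⟨j0, r0, hr0, h0⟩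
  exact ⟨r, hr, j, fun j' hj' s hs he =>
    hmin j' ⟨s, ltrans hs hr, fEq_trans he (fEq_mono hs hj)⟩ hj', hj⟩

variable (g : Lam a → K → Bool) (δ : Lam a → Lam a → K)

/-- the name of the set of triples of colour 1 -/
noncomputable def cname : Name (Cond K) :=
  Name.mk {i : Cond K × Lam a × Lam a × Lam a // Idx i.1 i.2.1 ∧ Idx i.1 i.2.2.1 ∧
      Idx i.1 i.2.2.2 ∧ Col lev g δ i.1 i.2.1 i.2.2.1 i.2.2.2}
    (fun i => triple ctop (nm i.1.2.1) (nm i.1.2.2.1) (nm i.1.2.2.2)) fun i => i.1.1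

variable {g δ}

theorem tri_intro {q : Cond K} {x y z : Lam a} (hx : Idx q x) (hy : Idx q y) (hz : Idx q z)
    (h : Col lev g δ q x y z) : Forces (cle K) (tri (cname g δ) (nm x) (nm y) (nm z)) q := by
  refine forces_exIn_of (triple ctop (nm x) (nm y) (nm z)) ?_
    fun u => forces_iff.2 fun r _ => mem_triple le_ctop
  exact fun r hr => ⟨r, lrefl r, ⟨(q, x, y, z), hx, hy, hz, h⟩, hr, fEq_refl _ r⟩

theorem tri_elim {q : Cond K} {x y z : Lam a} (hx : Idx q x) (hy : Idx q y) (hz : Idx q z)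
    (h : Forces (cle K) (tri (cname g δ) (nm x) (nm y) (nm z)) q) :
    ∃ r, cle K r q ∧ Tri lev g δ r {x, y, z} := by
  obtain ⟨r1, hr1, t, ht, hu⟩ := forces_exIn.1 h q (lrefl q)
  obtain ⟨r2, hr2, ⟨⟨s, x', y', z'⟩, hx', hy', hz', hc⟩, hs, he⟩ := ht r1 (lrefl r1)
  have key : ∀ w : Lam a, Idx s w → fMem (cle K) (nm w) (triple ctop (nm x') (nm y') (nm z')) r2 →
      w ∈ ({x, y, z} : Set (Lam a)) := by
    intro w hw hm
    obtain ⟨r3, hr3, h3⟩ := or3_elim ((forces_iff.1 (hu (nm w)) r2 hr2).1 (fMem_congr_right he hm))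
    have hw' := hw.mono (ltrans hr3 hs)
    have hq := ltrans hr3 (ltrans hr2 hr1)
    rcases h3 with h3 | h3 | h3
    · exact Or.inl (idx_uniq hw' (hx.mono hq) h3)
    · exact Or.inr (Or.inl (idx_uniq hw' (hy.mono hq) h3))
    · exact Or.inr (Or.inr (idx_uniq hw' (hz.mono hq) h3))
  exact ⟨r2, ltrans hr2 hr1,
    x', key x' hx' ((mem_triple le_ctop).2 (or3_intro (Or.inl (fEq_refl _ _)))),
    y', key y' hy' ((mem_triple le_ctop).2 (or3_intro (Or.inr (Or.inl (fEq_refl _ _))))),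
    z', key z' hz' ((mem_triple le_ctop).2 (or3_intro (Or.inr (Or.inr (fEq_refl _ _))))),
    hc.mono hs⟩

omit [LinearOrder K] [WellFoundedLT K] in
theorem tri_congr {c x y z x' y' z' : Name (Cond K)} {q : Cond K} (hx : fEq (cle K) x x' q)
    (hy : fEq (cle K) y y' q) (hz : fEq (cle K) z z' q)
    (h : Forces (cle K) (tri c x' y' z') q) : Forces (cle K) (tri c x y z) q :=
  ((sim_tri (R := fun x y => fEq (cle K) x y q) (fun x => fEq_refl x q) hx hy hz).forces q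
    (lrefl q)).2 h

variable [WellFoundedLT (Lam a)] [Nonempty K]

theorem forces_noArrow (hmono : Monotone (lev (a := a)))
    (hδ : ∀ x y, x < y → lev x = lev y →
      g x (δ x y) ≠ g y (δ x y) ∧ ∀ b < δ x y, g x b = g y b)
    (hK : ℵ₁ ≤ #K)
    (hsm : ∀ k, ∃ ν : Cardinal.{0}, ν.IsRegular ∧ ℵ₀ < ν ∧ ν ≤ #K ∧ ∃ S : Set K, #S < ν ∧
      ∀ x y, x < y → lev x = lev y → lev x < k → δ x y ∈ S) (p : Cond K) :
    Forces (cle K) (noArrow (Lname a) (kap ctop K)) p := by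
  refine forces_ex_of (cname g δ) ⟨fun X => forces_imp.2 fun q _ hX =>
    forces_imp.2 fun r hr hleq => Forces.dense fun s hs => ?_, ?_⟩
  · obtain ⟨s', hs', f, h1, h2⟩ := leq_elim (hleq.mono hs)
    have hs'q := ltrans hs' (ltrans hs hr)
    obtain ⟨w, hw, x, y, z, hx, hy, hz, hc⟩ := main_comb (q := s') hmono hδ hK hsm
      (In := fun w j => Idx w j ∧ fMem (cle K) (nm j) X w)
      (fun r s x hs h => ⟨h.1.mono hs, fMem_mono hs h.2⟩) (by
        intro q' hq'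
        have key : ∀ b : K, ∃ (u : Cond K) (j : Lam a), (cle K u q' ∧ Idx u j ∧
            fMem (cle K) (nm j) X u) ∧ Forces (cle K) (app f (chk ctop b) (nm j)) u := by
          intro b
          obtain ⟨u, hu, y, hy, hf⟩ := h1 (chk ctop b) q' hq' (chk_mem_kap le_ctop b q')
          obtain ⟨v, hv, j, hj, he⟩ :=
            idx_dense (a := a) (forces_sub.1 hX y u (ltrans hu (ltrans hq' hs'q)) hy)
          exact ⟨v, j, ⟨ltrans hv hu, hj, fMem_congr_left (fEq_symm he) (fMem_mono hv hy)⟩,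
            app_congr (fEq_refl _ v) (fEq_symm he) (hf.mono hv)⟩
        choose u j k1 k2 using key
        refine ⟨u, j, k1, fun b b' hc he => ?_⟩
        obtain ⟨v, hv1, hv2⟩ := exists_common hc
        exact chk_inj le_ctop (h2 _ _ (nm (j b)) v (ltrans hv1 (ltrans (k1 b).1 hq'))
          ((k2 b).mono hv1) (he ▸ (k2 b').mono hv2)))
    exact ⟨w, ltrans hw hs', forces_exIn_of (nm x) hx.2 (forces_exIn_of (nm y) hy.2
      (forces_exIn_of (nm z) hz.2 ⟨⟨fun v hv => hy.1 x hc.1 v hv,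
        fun v hv => hz.1 x (hc.1.trans hc.2.1) v hv, fun v hv => hz.1 y hc.2.1 v hv⟩,
        tri_intro hx.1 hy.1 hz.1 hc⟩))⟩
  · intro q _ h
    obtain ⟨q1, -, x, hx, h⟩ := forces_exIn.1 h q (lrefl q)
    obtain ⟨q2, l2, y, hy, h⟩ := forces_exIn.1 h q1 (lrefl q1)
    obtain ⟨q3, l3, z, hz, h⟩ := forces_exIn.1 h q2 (lrefl q2)
    obtain ⟨q4, l4, w, hw, h⟩ := forces_exIn.1 h q3 (lrefl q3)
    obtain ⟨r1, m1, j1, i1, e1⟩ := idx_dense (fMem_mono (ltrans l4 (ltrans l3 l2)) hx)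
    obtain ⟨r2, m2, j2, i2, e2⟩ := idx_dense (fMem_mono (ltrans m1 (ltrans l4 l3)) hy)
    obtain ⟨r3, m3, j3, i3, e3⟩ := idx_dense (fMem_mono (ltrans m2 (ltrans m1 l4)) hz)
    obtain ⟨r, m4, j4, i4, e4⟩ := idx_dense (fMem_mono (ltrans m3 (ltrans m2 m1)) hw)
    replace i1 := i1.mono (ltrans m4 (ltrans m3 m2))
    replace e1 := fEq_mono (ltrans m4 (ltrans m3 m2)) e1
    replace i2 := i2.mono (ltrans m4 m3)
    replace e2 := fEq_mono (ltrans m4 m3) e2
    replace i3 := i3.mono m4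
    replace e3 := fEq_mono m4 e3
    obtain ⟨⟨⟨n12, n13, n23⟩, ⟨-, n14, n24⟩, n34⟩, t1, t2, t3, t4⟩ :=
      Forces.mono (ltrans m4 (ltrans m3 (ltrans m2 m1))) h
    have ne : ∀ {j j' : Lam a} {u u' : Name (Cond K)}, fEq (cle K) (nm j) u r →
        fEq (cle K) (nm j') u' r → Forces (cle K) (neg (eq u u')) r → j ≠ j' := by
      rintro j j' u u' h1 h2 h3 rfl
      exact h3 r (lrefl r) (fEq_trans (fEq_symm h1) h2)
    obtain ⟨s1, k1, c1⟩ := tri_elim i1 i2 i3 (tri_congr e1 e2 e3 t1)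
    obtain ⟨s2, k2, c2⟩ := tri_elim (i1.mono k1) (i2.mono k1) (i4.mono k1)
      ((tri_congr e1 e2 e4 t2).mono k1)
    have k2' := ltrans k2 k1
    obtain ⟨s3, k3, c3⟩ := tri_elim (i1.mono k2') (i3.mono k2') (i4.mono k2')
      ((tri_congr e1 e3 e4 t3).mono k2')
    have k3' := ltrans k3 k2'
    obtain ⟨s4, k4, c4⟩ := tri_elim (i2.mono k3') (i3.mono k3') (i4.mono k3')
      ((tri_congr e2 e3 e4 t4).mono k3')
    exact no_K4 (fun x y h1 h2 => (hδ x y h1 h2).1) (ne e1 e2 n12) (ne e1 e3 n13) (ne e1 e4 n14)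
      (ne e2 e3 n23) (ne e2 e4 n24) (ne e3 e4 n34)
      (c1.mono (ltrans k4 (ltrans k3 k2)) Subset.rfl) (c2.mono (ltrans k4 k3) Subset.rfl)
      (c3.mono k4 Subset.rfl) c4

end Nice

theorem forces_sentence {ι : Type} (hι : #ι = ℵ_ Ordinal.omega0)
    (H1 : ℵ_ Ordinal.omega0 < ⨆ n : ℕ, (2 : Cardinal.{0}) ^ ℵ_ n)
    (H2 : ∀ n : ℕ, (2 : Cardinal.{0}) ^ ℵ_ n < ⨆ m : ℕ, (2 : Cardinal.{0}) ^ ℵ_ m)
    (p : Cond ι) : Forces (cle ι) sentence p := by
  obtain ⟨i1, i2, hord⟩ := exists_ord_eq_type_lt ι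
  have hs : ∀ x : ι, #(Iio x) < ℵ_ Ordinal.omega0 := fun x => hι ▸ mk_Iio_lt x hord
  have hex : ∀ n : ℕ, ∃ x : ι, #(Iio x) = ℵ_ n := by
    intro n
    have h : (ℵ_ n : Cardinal.{0}).ord < Ordinal.type (α := ι) (· < ·) := by
      rw [← hord, hι, ord_lt_ord]
      exact aleph_lt_alephW n
    obtain ⟨x, hx⟩ := Ordinal.typein_surj _ h
    refine ⟨x, ?_⟩
    have := congrArg Ordinal.card hx
    rw [Ordinal.card_typein, card_ord] at this
    exact this
  choose a ha using hex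
  have : Nonempty ι := ⟨a 0⟩
  obtain ⟨n0, hn0⟩ := exists_lt_of_lt_ciSup H1
  have h0 : #ι ≤ 2 ^ ℵ_ n0 := hι ▸ hn0.le
  obtain ⟨g, hg1, hg2⟩ := exists_code ha h0
  obtain ⟨j1, j2, hmono⟩ := exists_lex (Lam a) lev
  have hd : ∀ x y : Lam a, ∃ d : ι, g x ≠ g y → g x d ≠ g y d ∧ ∀ b < d, g x b = g y b := by
    intro x y
    by_cases h : g x = g y
    · exact ⟨a 0, fun h' => absurd h h'⟩
    · obtain ⟨d, hd, hmin⟩ := (wellFounded_lt (α := ι)).has_min {b | g x b ≠ g y b}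
        (Function.ne_iff.1 h)
      refine ⟨d, fun _ => ⟨hd, fun b hb => ?_⟩⟩
      by_contra hn
      exact hmin b hn hb
  choose δ hδ using hd
  have hδ' : ∀ x y, x < y → lev x = lev y →
      g x (δ x y) ≠ g y (δ x y) ∧ ∀ b < δ x y, g x b = g y b :=
    fun x y hxy hl => hδ x y fun he => hxy.ne (hg1 x y hl he)
  refine forces_ex_of (kap ctop ι) (forces_ex_of (Lname a) ⟨forces_alephW hs ha p,
    forces_bdd hs ha p, ?_, ?_, forces_noArrow hmono hδ' ?_ ?_ p⟩)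
  · refine no_inj_L ha (J := ι) (hι ▸ hn0) (chk ctop) fun y q _ hy => ?_
    obtain ⟨r, hr, b, hb⟩ := fMem_kap_elim hy
    exact ⟨r, hr, b, fEq_symm hb⟩
  · refine forces_allIn.2 fun α q _ hα => Forces.dense fun r hr => ?_
    obtain ⟨s, hsr, x, hx⟩ := fMem_kap_elim (fMem_mono hr hα)
    obtain ⟨n, hn⟩ := lt_a hs ha x
    obtain ⟨m, hm⟩ := exists_lt_of_lt_ciSup (H2 (max n n0))
    refine ⟨s, hsr, no_inj_L ha (J := {j : Lam a // lev j = n})
      ((mk_level_le ha h0 n).trans_lt hm) (fun j => nm j.1) fun y u hu hy => ?_⟩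
    obtain ⟨j, hj, he⟩ := exists_nice (a := a) y n
    exact ⟨u, lrefl u, ⟨j, hj⟩, fEq_symm (he u (sub_chk_of (fEq_mono hu hx) hy hn.le))⟩
  · rw [hι]
    simpa using (aleph_lt_alephW 1).le
  · intro k
    refine ⟨ℵ_ (max k n0 + 1 : ℕ), regular_aleph_nat_succ _, aleph0_lt_aleph_nat_succ _,
      hι ▸ (aleph_lt_alephW _).le, Iio (a (max k n0)), ?_, fun x y hxy hl hk => ?_⟩
    · rw [ha]
      exact aleph_nat_lt.2 (Nat.lt_succ_self _)
    · have h1 := (hδ' x y hxy hl).1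
      have h2 : δ x y < a (max (lev x) n0) := by
        by_contra hn
        exact h1 ((hg2 x _ hn).trans (hg2 y _ (hl ▸ hn)).symm)
      exact h2.trans_le (a_mono ha (max_le_max hk.le le_rfl))

end Pool.Agent.MP_a45f51_lc
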